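import Mathlib

/-!
# Stable local structure of poset modules does not imply strongly stable local structure

Let `C` be the poset `{a, b} < {c, d}` (a finite model of the circle) and let `M` be the local
system on `C` of rank two with holonomy `diag (1, t)`, where `t` is an element of the field of
infinite multiplicative order. All structure maps are isomorphisms, so that the local structure of
`M` consists of the trivial multi-flags only. The local structure relative to the multi-flag
generated by the line spanned by `(1, 1)` in `M(a)` contains the lines spanned by `(1, t ^ n)` for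
all `n`, so that it is infinite, while each of its stages is finite.
-/

set_option autoImplicit false

namespace Pool.Agent.Results.MP_0548d2_gt.HolonomyCounterexample

open CategoryTheory

universe u

/-- A multi-flag of `V`: a set of subspaces which contains `0` and `V` and is closed under
intersection. -/
def IsMultiFlag {k V : Type*} [Field k] [AddCommGroup V] [Module k V]
    (S : Set (Submodule k V)) : Prop :=
  ⊥ ∈ S ∧ ⊤ ∈ S ∧ ∀ W ∈ S, ∀ W' ∈ S, W ⊓ W' ∈ S

/-- The multi-flag generated by a set of subspaces: the smallest multi-flag containing it. -/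
def multiFlag {k V : Type*} [Field k] [AddCommGroup V] [Module k V]
    (T : Set (Submodule k V)) : Set (Submodule k V) :=
  ⋂₀ {S | IsMultiFlag S ∧ T ⊆ S}

section

variable {k : Type} [Field k] {C : Type} [PartialOrder C] (M : C ⥤ FGModuleCat.{0} k)

/-- The linear map `φ_{xy} : M(x) → M(y)`. -/
def phi {x y : C} (h : x ≤ y) : M.obj x →ₗ[k] M.obj y := (M.map (homOfLE h)).hom.hom

/-- The `n`-th stage `𝓕^F_n(M)(x)` of the local structure of `M` relative to `F`. -/
def stage (F : ∀ x : C, Set (Submodule k (M.obj x))) : ℕ → ∀ x : C, Set (Submodule k (M.obj x))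
  | 0 => fun x => multiFlag
      ({W | ∃ (y : C) (h : x ≤ y), W = LinearMap.ker (phi M h)} ∪
        {W | ∃ (z : C) (h : z ≤ x), W = LinearMap.range (phi M h)} ∪ F x)
  | n + 1 => fun x => multiFlag
      ({W | ∃ (y : C) (h : x ≤ y), ∃ W' ∈ stage F n y, W = Submodule.comap (phi M h) W'} ∪
        {W | ∃ (z : C) (h : z ≤ x), ∃ W' ∈ stage F n z, W = Submodule.map (phi M h) W'})

/-- `M` has stable local structure. -/
def Stable : Prop :=
  ∀ x : C, ∃ N : ℕ, ∀ n ≥ N, stage M (fun _ => ∅) n x = stage M (fun _ => ∅) (n + 1) x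

/-- `M` has strongly stable local structure: for all finite multi-flags `F(x)` of the `M(x)` the
local structure relative to `F` is reached at a finite stage. -/
def StronglyStable : Prop :=
  ∀ F : ∀ x : C, Set (Submodule k (M.obj x)), (∀ x, IsMultiFlag (F x) ∧ (F x).Finite) →
    ∃ N : ℕ, ∀ x : C, (⋃ n, stage M F n x) = stage M F N x

end

/-! ### The poset -/

/-- the four points -/
inductive Four
  | a
  | b
  | c
  | d
  deriving DecidableEq

/-- whether a point is an upper one -/
def Four.up : Four → Bool
  | .a => false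
  | .b => false
  | .c => true
  | .d => true

instance : PartialOrder Four where
  le x y := x = y ∨ (x.up = false ∧ y.up = true)
  le_refl x := Or.inl rfl
  le_trans x y z h h' := by
    rcases h with rfl | ⟨h1, h2⟩
    · exact h'
    · rcases h' with rfl | ⟨h3, h4⟩
      · exact Or.inr ⟨h1, h2⟩
      · exact Or.inr ⟨h1, h4⟩
  le_antisymm x y h h' := by
    rcases h with rfl | ⟨h1, h2⟩
    · rfl
    · rcases h' with rfl | ⟨h3, h4⟩
      · rfl
      · rw [h3] at h2
        cases h2

instance : Finite Four := by
  refine Finite.of_surjective (fun i : Fin 4 => ![Four.a, Four.b, Four.c, Four.d] i) ?_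
  intro x
  cases x
  · exact ⟨0, rfl⟩
  · exact ⟨1, rfl⟩
  · exact ⟨2, rfl⟩
  · exact ⟨3, rfl⟩

theorem ac : Four.a ≤ Four.c := Or.inr ⟨rfl, rfl⟩
theorem ad : Four.a ≤ Four.d := Or.inr ⟨rfl, rfl⟩
theorem bc : Four.b ≤ Four.c := Or.inr ⟨rfl, rfl⟩
theorem bd : Four.b ≤ Four.d := Or.inr ⟨rfl, rfl⟩

theorem zz (x : Four) : Zigzag Four.a x := by
  cases x
  · exact Relation.ReflTransGen.refl
  · exact (Zigzag.of_hom (homOfLE ac)).trans (Zigzag.of_inv (homOfLE bc))
  · exact Zigzag.of_hom (homOfLE ac)
  · exact Zigzag.of_hom (homOfLE ad)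

instance : Nonempty Four := ⟨Four.a⟩

instance : IsConnected Four :=
  zigzag_isConnected fun x y => (zigzag_symm.symm _ _ (zz x)).trans (zz y)

/-! ### The module -/

section

variable {k : Type} [Field k]

/-- the holonomy -/
def hol (t : k) : (k × k) →ₗ[k] (k × k) := LinearMap.prodMap LinearMap.id (t • LinearMap.id)

/-- the structure maps -/
def tmap (t : k) (x y : Four) : (k × k) →ₗ[k] (k × k) :=
  if x = .a ∧ y = .d then hol t else LinearMap.id

theorem tmap_comp (t : k) {x y z : Four} (h : x ≤ y) (h' : y ≤ z) :
    (tmap t y z).comp (tmap t x y) = tmap t x z := by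
  rcases h with rfl | ⟨h1, h2⟩
  · have : tmap t x x = LinearMap.id := by
      unfold tmap
      rw [if_neg]
      rintro ⟨rfl, h⟩
      cases h
    rw [this, LinearMap.comp_id]
  · rcases h' with rfl | ⟨h3, h4⟩
    · have : tmap t y y = LinearMap.id := by
        unfold tmap
        rw [if_neg]
        rintro ⟨rfl, h⟩
        cases h
      rw [this, LinearMap.id_comp]
    · rw [h3] at h2
      cases h2

/-- the local system of rank two with holonomy `diag (1, t)` -/
noncomputable def locSys (t : k) : Four ⥤ FGModuleCat.{0} k where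
  obj _ := FGModuleCat.of k (k × k)
  map {x y} _ := FGModuleCat.ofHom (tmap t x y)
  map_id x := by
    have : tmap t x x = LinearMap.id := by
      unfold tmap
      rw [if_neg]
      rintro ⟨rfl, h⟩
      cases h
    rw [this]
    rfl
  map_comp {x y z} f g := by
    rw [← tmap_comp t (leOfHom f) (leOfHom g)]
    rfl

theorem phi_locSys (t : k) {x y : Four} (h : x ≤ y) : phi (locSys t) h = tmap t x y := rfl

theorem tmap_bijective {t : k} (ht : t ≠ 0) (x y : Four) : Function.Bijective (tmap t x y) := by
  unfold tmap
  split_ifs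
  · constructor
    · rintro ⟨u, v⟩ ⟨u', v'⟩ h
      have h1 : u = u' := congrArg Prod.fst h
      have h2 : t * v = t * v' := congrArg Prod.snd h
      rw [h1, mul_left_cancel₀ ht h2]
    · rintro ⟨u, v⟩
      refine ⟨(u, t⁻¹ * v), ?_⟩
      change (u, t * (t⁻¹ * v)) = (u, v)
      rw [mul_inv_cancel_left₀ ht]
  · exact Function.bijective_id

end

/-! ### Multi-flags -/

section

variable {k V : Type*} [Field k] [AddCommGroup V] [Module k V]

theorem subset_multiFlag (T : Set (Submodule k V)) : T ⊆ multiFlag T :=
  Set.subset_sInter fun _ hS => hS.2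

theorem isMultiFlag_multiFlag (T : Set (Submodule k V)) : IsMultiFlag (multiFlag T) := by
  refine ⟨?_, ?_, ?_⟩
  · rw [multiFlag, Set.mem_sInter]
    exact fun S hS => hS.1.1
  · rw [multiFlag, Set.mem_sInter]
    exact fun S hS => hS.1.2.1
  · intro W hW W' hW'
    rw [multiFlag, Set.mem_sInter] at hW hW' ⊢
    exact fun S hS => hS.1.2.2 W (hW S hS) W' (hW' S hS)

theorem multiFlag_min {T S : Set (Submodule k V)} (h : IsMultiFlag S) (hT : T ⊆ S) :
    multiFlag T ⊆ S := Set.sInter_subset_of_mem ⟨h, hT⟩

theorem isMultiFlag_trivial : IsMultiFlag ({⊥, ⊤} : Set (Submodule k V)) := by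
  refine ⟨by simp, by simp, ?_⟩
  rintro W (rfl | rfl) W' (rfl | rfl) <;> simp

theorem multiFlag_trivial {T : Set (Submodule k V)} (hT : T ⊆ {⊥, ⊤}) :
    multiFlag T = {⊥, ⊤} := by
  apply le_antisymm
  · exact multiFlag_min isMultiFlag_trivial hT
  · rintro W (rfl | rfl)
    · exact (isMultiFlag_multiFlag T).1
    · exact (isMultiFlag_multiFlag T).2.1

theorem finite_multiFlag {T : Set (Submodule k V)} (hT : T.Finite) : (multiFlag T).Finite := by
  have h : IsMultiFlag ({⊥} ∪ sInf '' (𝒫 T)) := by
    refine ⟨Or.inl rfl, Or.inr ⟨∅, by simp, by simp⟩, ?_⟩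
    rintro W (hW | ⟨A, hA, rfl⟩) W' (hW' | ⟨B, hB, rfl⟩)
    · rw [Set.mem_singleton_iff] at hW
      rw [hW, bot_inf_eq]
      exact Or.inl rfl
    · rw [Set.mem_singleton_iff] at hW
      rw [hW, bot_inf_eq]
      exact Or.inl rfl
    · rw [Set.mem_singleton_iff] at hW'
      rw [hW', inf_bot_eq]
      exact Or.inl rfl
    · refine Or.inr ⟨A ∪ B, ?_, ?_⟩
      · exact Set.union_subset hA hB
      · rw [sInf_union]
  refine Set.Finite.subset (Set.Finite.union (Set.finite_singleton _) ?_)
    (multiFlag_min h ?_)
  · exact (hT.powerset).image _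
  · intro W hW
    exact Or.inr ⟨{W}, by simpa using hW, by simp⟩

end

/-! ### The counterexample -/

section

variable {k : Type} [Field k] {t : k}

theorem stage_trivial (ht : t ≠ 0) (n : ℕ) (x : Four) :
    stage (locSys t) (fun _ => ∅) n x = {⊥, ⊤} := by
  induction n generalizing x with
  | zero =>
    apply multiFlag_trivial
    rintro W ((⟨y, h, rfl⟩ | ⟨z, h, rfl⟩) | h)
    · left
      rw [phi_locSys]
      exact LinearMap.ker_eq_bot.2 (tmap_bijective ht x y).1
    · right
      rw [phi_locSys]
      exact LinearMap.range_eq_top.2 (tmap_bijective ht z x).2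
    · cases h
  | succ n ih =>
    apply multiFlag_trivial
    rintro W (⟨y, h, W', hW', rfl⟩ | ⟨z, h, W', hW', rfl⟩)
    · rw [ih] at hW'
      rcases hW' with rfl | rfl
      · left
        rw [phi_locSys]
        exact LinearMap.ker_eq_bot.2 (tmap_bijective ht x y).1
      · right
        exact Submodule.comap_top _
    · rw [ih] at hW'
      rcases hW' with rfl | rfl
      · left
        exact Submodule.map_bot _
      · right
        exact (LinearMap.range_eq_map (tmap t z x)).symm.trans
          (LinearMap.range_eq_top.2 (tmap_bijective ht z x).2)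

theorem stable (ht : t ≠ 0) : Stable (locSys t) := by
  intro x
  refine ⟨0, fun n _ => ?_⟩
  rw [stage_trivial ht, stage_trivial ht]

/-- the lines `L_n` -/
def line (t : k) (n : ℕ) : Submodule k (k × k) := Submodule.span k {(1, t ^ n)}

/-- the multi-flags -/
def flags (t : k) (x : Four) : Set (Submodule k ((locSys t).obj x)) :=
  {⊥, ⊤} ∪ {W | x = .a ∧ W = line t 0}

theorem isMultiFlag_flags (t : k) (x : Four) : IsMultiFlag (flags t x) := by
  refine ⟨Or.inl (by simp), Or.inl (by simp), ?_⟩
  rintro W ((rfl | rfl) | ⟨hx, rfl⟩) W' ((rfl | rfl) | ⟨hx', rfl⟩)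
  · left; simp
  · left; simp
  · exact Or.inl (Or.inl (bot_inf_eq _))
  · left; simp
  · left; simp
  · right
    exact ⟨hx', top_inf_eq _⟩
  · exact Or.inl (Or.inl (inf_bot_eq _))
  · right
    exact ⟨hx, inf_top_eq _⟩
  · right
    exact ⟨hx, inf_idem _⟩

theorem finite_flags (t : k) (x : Four) : (flags t x).Finite := by
  refine Set.Finite.union (by simp) ?_
  exact (Set.finite_singleton (line t 0)).subset fun W hW => hW.2

theorem stage_finite (n : ℕ) (x : Four) : (stage (locSys t) (flags t) n x).Finite := by
  induction n generalizing x with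
  | zero =>
    apply finite_multiFlag
    refine Set.Finite.union (Set.Finite.union ?_ ?_) (finite_flags t x)
    · have : {W | ∃ (y : Four) (h : x ≤ y), W = LinearMap.ker (phi (locSys t) h)} ⊆
          ⋃ y : Four, {LinearMap.ker (tmap t x y)} := by
        rintro W ⟨y, h, rfl⟩
        exact Set.mem_iUnion.2 ⟨y, rfl⟩
      exact (Set.finite_iUnion fun y => Set.finite_singleton _).subset this
    · have : {W | ∃ (z : Four) (h : z ≤ x), W = LinearMap.range (phi (locSys t) h)} ⊆
          ⋃ z : Four, {LinearMap.range (tmap t z x)} := by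
        rintro W ⟨z, h, rfl⟩
        exact Set.mem_iUnion.2 ⟨z, rfl⟩
      exact (Set.finite_iUnion fun y => Set.finite_singleton _).subset this
  | succ n ih =>
    apply finite_multiFlag
    refine Set.Finite.union ?_ ?_
    · have : {W | ∃ (y : Four) (h : x ≤ y), ∃ W' ∈ stage (locSys t) (flags t) n y,
            W = Submodule.comap (phi (locSys t) h) W'} ⊆
          ⋃ y : Four, (Submodule.comap (tmap t x y)) '' (stage (locSys t) (flags t) n y) := by
        rintro W ⟨y, h, W', hW', rfl⟩
        exact Set.mem_iUnion.2 ⟨y, ⟨W', hW', rfl⟩⟩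
      exact (Set.finite_iUnion fun y => (ih y).image _).subset this
    · have : {W | ∃ (z : Four) (h : z ≤ x), ∃ W' ∈ stage (locSys t) (flags t) n z,
            W = Submodule.map (phi (locSys t) h) W'} ⊆
          ⋃ z : Four, (Submodule.map (tmap t z x)) '' (stage (locSys t) (flags t) n z) := by
        rintro W ⟨y, h, W', hW', rfl⟩
        exact Set.mem_iUnion.2 ⟨y, ⟨W', hW', rfl⟩⟩
      exact (Set.finite_iUnion fun y => (ih y).image _).subset this

theorem mem_comap {n : ℕ} {x y : Four} (h : x ≤ y) {W : Submodule k (k × k)}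
    (hW : W ∈ stage (locSys t) (flags t) n y) :
    Submodule.comap (tmap t x y) W ∈ stage (locSys t) (flags t) (n + 1) x :=
  subset_multiFlag _ (Or.inl ⟨y, h, W, hW, rfl⟩)

theorem mem_map {n : ℕ} {x y : Four} (h : x ≤ y) {W : Submodule k (k × k)}
    (hW : W ∈ stage (locSys t) (flags t) n x) :
    Submodule.map (tmap t x y) W ∈ stage (locSys t) (flags t) (n + 1) y :=
  subset_multiFlag _ (Or.inr ⟨x, h, W, hW, rfl⟩)

theorem line_mem (n : ℕ) : ∃ m, line t n ∈ stage (locSys t) (flags t) m Four.a := by
  induction n with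
  | zero => exact ⟨0, subset_multiFlag _ (Or.inr (Or.inr ⟨rfl, rfl⟩))⟩
  | succ n ih =>
    obtain ⟨m, hm⟩ := ih
    have h1 := mem_comap (t := t) ac (mem_map (t := t) bc (mem_comap (t := t) bd
      (mem_map (t := t) ad hm)))
    refine ⟨m + 1 + 1 + 1 + 1, ?_⟩
    have hbd : tmap t Four.b Four.d = LinearMap.id := by
      unfold tmap
      rw [if_neg]
      rintro ⟨h, -⟩
      cases h
    have hbc : tmap t Four.b Four.c = LinearMap.id := by
      unfold tmap
      rw [if_neg]
      rintro ⟨h, -⟩
      cases h
    have hac : tmap t Four.a Four.c = LinearMap.id := by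
      unfold tmap
      rw [if_neg]
      rintro ⟨-, h⟩
      cases h
    have had : tmap t Four.a Four.d = hol t := by
      unfold tmap
      rw [if_pos ⟨rfl, rfl⟩]
    rw [hbd, hbc, hac, had, Submodule.comap_id, Submodule.map_id, Submodule.comap_id] at h1
    have h2 : Submodule.map (hol t) (line t n) = line t (n + 1) := by
      unfold line
      rw [Submodule.map_span, Set.image_singleton]
      congr 2
      change (1, t * t ^ n) = (1, t ^ (n + 1))
      rw [pow_succ']
    rw [h2] at h1
    exact h1

theorem line_injective (ht0 : t ≠ 0) (ht : ∀ n : ℕ, 0 < n → t ^ n ≠ 1) :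
    Function.Injective (line t) := by
  intro m n h
  have h1 : ((1, t ^ m) : k × k) ∈ line t n := by
    rw [← h]
    exact Submodule.mem_span_singleton_self _
  obtain ⟨c, hc⟩ := Submodule.mem_span_singleton.1 h1
  have h2 : c * 1 = 1 := congrArg Prod.fst hc
  have h3 : c * t ^ n = t ^ m := congrArg Prod.snd hc
  rw [mul_one] at h2
  rw [h2, one_mul] at h3
  have key : ∀ i j : ℕ, i < j → t ^ j ≠ t ^ i := by
    intro i j hij he
    apply ht (j - i) (by omega)
    have h4 : t ^ (j - i) * t ^ i = 1 * t ^ i := by
      rw [← pow_add, Nat.sub_add_cancel hij.le, one_mul, he]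
    exact mul_right_cancel₀ (pow_ne_zero _ ht0) h4
  rcases lt_trichotomy m n with h5 | h5 | h5
  · exact absurd h3 (key m n h5)
  · exact h5
  · exact absurd h3.symm (key n m h5)

theorem not_stronglyStable (ht0 : t ≠ 0) (ht : ∀ n : ℕ, 0 < n → t ^ n ≠ 1) :
    ¬ StronglyStable (locSys t) := by
  intro h
  obtain ⟨N, hN⟩ := h (flags t) fun x => ⟨isMultiFlag_flags t x, finite_flags t x⟩
  have h1 : Set.range (line t) ⊆ stage (locSys t) (flags t) N Four.a := by
    rintro _ ⟨n, rfl⟩
    obtain ⟨m, hm⟩ := line_mem (t := t) n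
    rw [← hN Four.a]
    exact Set.mem_iUnion.2 ⟨m, hm⟩
  exact Set.infinite_range_of_injective (line_injective ht0 ht) ((stage_finite N Four.a).subset h1)

end

/-- Let `k` be a field with an element `t ≠ 0` of infinite multiplicative order (for instance
`k = ℚ` and `t = 2`). There is a finite connected poset `C` with four elements and a module over it
with two-dimensional values which has stable local structure but does not have strongly stable
local structure. -/
theorem result (k : Type) [Field k] (t : k) (ht0 : t ≠ 0) (ht : ∀ n : ℕ, 0 < n → t ^ n ≠ 1) :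
    ∃ (C : Type) (_ : PartialOrder C) (M : C ⥤ FGModuleCat.{0} k),
      Nat.card C = 4 ∧ IsConnected C ∧ (∀ x : C, Module.finrank k (M.obj x) = 2) ∧
      Stable M ∧ ¬ StronglyStable M := by
  refine ⟨Four, inferInstance, locSys t, ?_, inferInstance, ?_, stable ht0,
    not_stronglyStable ht0 ht⟩
  · have e : Four ≃ Fin 4 :=
      { toFun := fun x => match x with
          | .a => 0
          | .b => 1
          | .c => 2
          | .d => 3
        invFun := fun i => ![Four.a, Four.b, Four.c, Four.d] i
        left_inv := fun x => by cases x <;> rfl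
        right_inv := fun i => by fin_cases i <;> rfl }
    rw [Nat.card_congr e, Nat.card_eq_fintype_card, Fintype.card_fin]
  · intro x
    change Module.finrank k (k × k) = 2
    simp

end Pool.Agent.Results.MP_0548d2_gt.HolonomyCounterexample
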